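import Mathlib

set_option autoImplicit false

namespace Pool.Agent.H9Z.Cover

abbrev E : Type := EuclideanSpace ℝ (Fin 2)

/-- value of the linear functional with coefficients `n` -/
def ev (n : ℝ × ℝ) (x : E) : ℝ := n.1 * x 0 + n.2 * x 1

def cross (n m : ℝ × ℝ) : ℝ := n.1 * m.2 - n.2 * m.1

def IsTop (K : Set E) (n : ℝ × ℝ) (p : E) : Prop := p ∈ K ∧ ∀ q ∈ K, ev n q ≤ ev n p

def Near (K : Set E) (x y : E) : Prop :=
  ∀ n : ℝ × ℝ, n ≠ 0 → ∃ a ∈ K, ∃ b ∈ K, 2 * (ev n x - ev n y) < ev n a - ev n b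

lemma ne_zero_left {n m : ℝ × ℝ} (h : 0 < cross n m) : n ≠ 0 := by
  rintro rfl
  simp [cross] at h

lemma ne_zero_right {n m : ℝ × ℝ} (h : 0 < cross n m) : m ≠ 0 := by
  rintro rfl
  simp [cross] at h

lemma rel3 (n1 n2 n3 : ℝ × ℝ) (x : E) :
    cross n2 n3 * ev n1 x + cross n3 n1 * ev n2 x + cross n1 n2 * ev n3 x = 0 := by
  simp only [cross, ev]; ring

/-- width bound from a positive relation between three support directions -/
lemma width_le {K : Set E} {n1 n2 n3 : ℝ × ℝ} {z1 z2 z3 a b : E}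
    (h1 : IsTop K n1 z1) (h2 : IsTop K n2 z2) (h3 : IsTop K n3 z3) (ha : a ∈ K) (hb : b ∈ K)
    (c1 : 0 ≤ cross n2 n3) (c2 : 0 ≤ cross n3 n1) (c3 : 0 ≤ cross n1 n2) :
    cross n2 n3 * (ev n1 a - ev n1 b) ≤
      cross n2 n3 * ev n1 z1 + cross n3 n1 * ev n2 z2 + cross n1 n2 * ev n3 z3 := by
  have e := rel3 n1 n2 n3 b
  have i1 := mul_le_mul_of_nonneg_left (h1.2 a ha) c1
  have i2 := mul_le_mul_of_nonneg_left (h2.2 b hb) c2
  have i3 := mul_le_mul_of_nonneg_left (h3.2 b hb) c3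
  nlinarith

lemma tri {K : Set E} {n1 n2 n3 : ℝ × ℝ} {z1 z2 z3 : E}
    (h1 : IsTop K n1 z1) (h2 : IsTop K n2 z2) (h3 : IsTop K n3 z3)
    (r1 : Near K z1 z2) (r3 : Near K z3 z2)
    (c12 : 0 < cross n1 n2) (c23 : 0 < cross n2 n3) (c13 : cross n1 n3 ≤ 0) : False := by
  have c31 : 0 ≤ cross n3 n1 := by simp only [cross] at c13 ⊢; linarith
  obtain ⟨a, ha, b, hb, hab⟩ := r1 n1 (ne_zero_left c12)
  obtain ⟨a', ha', b', hb', hab'⟩ := r3 n3 (ne_zero_right c23)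
  have w1 := width_le h1 h2 h3 ha hb c23.le c31 c12.le
  have w3 := width_le h3 h1 h2 ha' hb' c12.le c23.le c31
  have e := rel3 n1 n2 n3 z2
  have i1 := mul_lt_mul_of_pos_left hab c23
  have i3 := mul_lt_mul_of_pos_left hab' c12
  nlinarith

/-- the signed position of `z` on the support line with normal `n1`, between the
neighbouring support lines -/
noncomputable def sig (n0 n1 n2 : ℝ × ℝ) (h0 h2 : ℝ) (z : E) : ℝ :=
  cross n1 n2 * (h0 - ev n0 z) - cross n0 n1 * (h2 - ev n2 z)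

lemma stepA {K : Set E} {n0 n1 n2 n3 : ℝ × ℝ} {z0 z1 z2 z3 : E}
    (h0 : IsTop K n0 z0) (h2 : IsTop K n2 z2) (h3 : IsTop K n3 z3)
    (r : Near K z1 z2) (c01 : 0 < cross n0 n1) (c12 : 0 < cross n1 n2) (c23 : 0 < cross n2 n3)
    (c02 : 0 < cross n0 n2) (c30 : 0 < cross n3 n0) :
    cross n0 n2 * sig n1 n2 n3 (ev n1 z1) (ev n3 z3) z2 <
      cross n2 n3 * sig n0 n1 n2 (ev n0 z0) (ev n2 z2) z1 := by
  obtain ⟨a, ha, b, hb, hab⟩ := r n0 (ne_zero_left c01)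
  have w := width_le h0 h2 h3 ha hb c23.le c30.le c02.le
  have i1 := mul_lt_mul_of_pos_left hab c23
  have i2 : cross n2 n3 * (2 * (ev n0 z1 - ev n0 z2)) <
      cross n2 n3 * ev n0 z0 + cross n3 n0 * ev n2 z2 + cross n0 n2 * ev n3 z3 := lt_of_lt_of_le i1 w
  have i3 := mul_lt_mul_of_pos_left i2 c12
  have key : cross n2 n3 * sig n0 n1 n2 (ev n0 z0) (ev n2 z2) z1 -
      cross n0 n2 * sig n1 n2 n3 (ev n1 z1) (ev n3 z3) z2 =
      cross n1 n2 * (cross n2 n3 * ev n0 z0 + cross n3 n0 * ev n2 z2 + cross n0 n2 * ev n3 z3) -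
      cross n1 n2 * (cross n2 n3 * (2 * (ev n0 z1 - ev n0 z2))) := by
    simp only [sig, cross, ev]; ring
  linarith

lemma stepB {K : Set E} {n0 n1 n2 n3 : ℝ × ℝ} {z0 z1 z2 z3 : E}
    (h0 : IsTop K n0 z0) (h1 : IsTop K n1 z1) (h3 : IsTop K n3 z3)
    (r : Near K z2 z1) (c01 : 0 < cross n0 n1) (c12 : 0 < cross n1 n2) (c23 : 0 < cross n2 n3)
    (c13 : 0 < cross n1 n3) (c30 : 0 < cross n3 n0) :
    cross n0 n1 * sig n1 n2 n3 (ev n1 z1) (ev n3 z3) z2 <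
      cross n1 n3 * sig n0 n1 n2 (ev n0 z0) (ev n2 z2) z1 := by
  obtain ⟨a, ha, b, hb, hab⟩ := r n3 (ne_zero_right c23)
  have c : 0 ≤ cross n1 n3 := c13.le
  have w := width_le h3 h0 h1 ha hb c01.le c13.le c30.le
  have i1 := mul_lt_mul_of_pos_left hab c01
  have i2 : cross n0 n1 * (2 * (ev n3 z2 - ev n3 z1)) <
      cross n0 n1 * ev n3 z3 + cross n1 n3 * ev n0 z0 + cross n3 n0 * ev n1 z1 := lt_of_lt_of_le i1 w
  have i3 := mul_lt_mul_of_pos_left i2 c12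
  have key : cross n1 n3 * sig n0 n1 n2 (ev n0 z0) (ev n2 z2) z1 -
      cross n0 n1 * sig n1 n2 n3 (ev n1 z1) (ev n3 z3) z2 =
      cross n1 n2 * (cross n0 n1 * ev n3 z3 + cross n1 n3 * ev n0 z0 + cross n3 n0 * ev n1 z1) -
      cross n1 n2 * (cross n0 n1 * (2 * (ev n3 z2 - ev n3 z1))) := by
    simp only [sig, cross, ev]; ring
  linarith

lemma prod5_lt {a0 a1 a2 a3 a4 b0 b1 b2 b3 b4 s0 s1 s2 s3 s4 : ℝ}
    (pa0 : 0 < a0) (pa1 : 0 < a1) (pa2 : 0 < a2) (pa3 : 0 < a3) (pa4 : 0 < a4)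
    (ps0 : 0 < s0) (ps1 : 0 < s1) (ps2 : 0 < s2) (ps3 : 0 < s3) (ps4 : 0 < s4)
    (h0 : a0 * s1 < b0 * s0) (h1 : a1 * s2 < b1 * s1) (h2 : a2 * s3 < b2 * s2)
    (h3 : a3 * s4 < b3 * s3) (h4 : a4 * s0 < b4 * s4) :
    a0 * a1 * a2 * a3 * a4 < b0 * b1 * b2 * b3 * b4 := by
  have p0 : 0 ≤ a0 * s1 := by positivity
  have p1 : 0 ≤ a1 * s2 := by positivity
  have p2 : 0 ≤ a2 * s3 := by positivity
  have p3 : 0 ≤ a3 * s4 := by positivity
  have p4 : 0 ≤ a4 * s0 := by positivity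
  have m1 := mul_lt_mul'' h0 h1 p0 p1
  have m2 := mul_lt_mul'' m1 h2 (by positivity) p2
  have m3 := mul_lt_mul'' m2 h3 (by positivity) p3
  have m4 := mul_lt_mul'' m3 h4 (by positivity) p4
  have ps : 0 < s0 * s1 * s2 * s3 * s4 := by positivity
  have : (a0 * a1 * a2 * a3 * a4) * (s0 * s1 * s2 * s3 * s4) <
      (b0 * b1 * b2 * b3 * b4) * (s0 * s1 * s2 * s3 * s4) := by
    calc _ = a0 * s1 * (a1 * s2) * (a2 * s3) * (a3 * s4) * (a4 * s0) := by ring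
      _ < _ := m4
      _ = _ := by ring
  exact lt_of_mul_lt_mul_right this ps.le

lemma neg_next {a b s t : ℝ} (pa : 0 < a) (pb : 0 < b) (h : a * t < b * s) (hs : s ≤ 0) : t < 0 := by
  by_contra ht
  push Not at ht
  have := mul_nonneg pa.le ht
  have := mul_nonneg pb.le (neg_nonneg.2 hs)
  linarith

lemma cyc5 {a0 a1 a2 a3 a4 b0 b1 b2 b3 b4 s0 s1 s2 s3 s4 : ℝ}
    (pa0 : 0 < a0) (pa1 : 0 < a1) (pa2 : 0 < a2) (pa3 : 0 < a3) (pa4 : 0 < a4)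
    (pb0 : 0 < b0) (pb1 : 0 < b1) (pb2 : 0 < b2) (pb3 : 0 < b3) (pb4 : 0 < b4)
    (h0 : b4 * s1 < a1 * s0) (h1 : b0 * s2 < a2 * s1) (h2 : b1 * s3 < a3 * s2)
    (h3 : b2 * s4 < a4 * s3) (h4 : b3 * s0 < a0 * s4)
    (g0 : a4 * s1 < b0 * s0) (g1 : a0 * s2 < b1 * s1) (g2 : a1 * s3 < b2 * s2)
    (g3 : a2 * s4 < b3 * s3) (g4 : a3 * s0 < b4 * s4) : False := by
  by_cases hp : 0 < s0 ∧ 0 < s1 ∧ 0 < s2 ∧ 0 < s3 ∧ 0 < s4
  · obtain ⟨p0, p1, p2, p3, p4⟩ := hp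
    have u := prod5_lt pb4 pb0 pb1 pb2 pb3 p0 p1 p2 p3 p4 h0 h1 h2 h3 h4
    have v := prod5_lt pa4 pa0 pa1 pa2 pa3 p0 p1 p2 p3 p4 g0 g1 g2 g3 g4
    have e1 : b4 * b0 * b1 * b2 * b3 = b0 * b1 * b2 * b3 * b4 := by ring
    have e2 : a4 * a0 * a1 * a2 * a3 = a1 * a2 * a3 * a4 * a0 := by ring
    linarith
  · have n0 := fun hs => neg_next pb4 pa1 h0 hs
    have n1 := fun hs => neg_next pb0 pa2 h1 hs
    have n2 := fun hs => neg_next pb1 pa3 h2 hs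
    have n3 := fun hs => neg_next pb2 pa4 h3 hs
    have n4 := fun hs => neg_next pb3 pa0 h4 hs
    have q0 : s0 < 0 := by
      by_contra hc
      push Not at hc
      have t4 : 0 < s4 := by by_contra h; push Not at h; linarith [n4 h]
      have t3 : 0 < s3 := by by_contra h; push Not at h; linarith [n3 h]
      have t2 : 0 < s2 := by by_contra h; push Not at h; linarith [n2 h]
      have t1 : 0 < s1 := by by_contra h; push Not at h; linarith [n1 h]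
      have t0 : 0 < s0 := by by_contra h; push Not at h; linarith [n0 h]
      exact hp ⟨t0, t1, t2, t3, t4⟩
    have q1 := n0 q0.le
    have q2 := n1 q1.le
    have q3 := n2 q2.le
    have q4 := n3 q3.le
    have u := prod5_lt (s0 := -s0) (s1 := -s4) (s2 := -s3) (s3 := -s2) (s4 := -s1)
      (b0 := b3) (b1 := b2) (b2 := b1) (b3 := b0) (b4 := b4)
      pa0 pa4 pa3 pa2 pa1 (by linarith) (by linarith) (by linarith) (by linarith) (by linarith)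
      (by linarith) (by linarith) (by linarith) (by linarith) (by linarith)
    have v := prod5_lt (s0 := -s0) (s1 := -s4) (s2 := -s3) (s3 := -s2) (s4 := -s1)
      (b0 := a3) (b1 := a2) (b2 := a1) (b3 := a0) (b4 := a4)
      pb4 pb3 pb2 pb1 pb0 (by linarith) (by linarith) (by linarith) (by linarith) (by linarith)
      (by linarith) (by linarith) (by linarith) (by linarith) (by linarith)
    have e1 : b4 * b3 * b2 * b1 * b0 = b3 * b2 * b1 * b0 * b4 := by ring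
    have e2 : a0 * a4 * a3 * a2 * a1 = a3 * a2 * a1 * a0 * a4 := by ring
    linarith

lemma pent {K : Set E} {n0 n1 n2 n3 n4 : ℝ × ℝ} {z0 z1 z2 z3 z4 : E}
    (h0 : IsTop K n0 z0) (h1 : IsTop K n1 z1) (h2 : IsTop K n2 z2) (h3 : IsTop K n3 z3)
    (h4 : IsTop K n4 z4)
    (r01 : Near K z0 z1) (r12 : Near K z1 z2) (r23 : Near K z2 z3) (r34 : Near K z3 z4)
    (r40 : Near K z4 z0)
    (r10 : Near K z1 z0) (r21 : Near K z2 z1) (r32 : Near K z3 z2) (r43 : Near K z4 z3)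
    (r04 : Near K z0 z4)
    (a0 : 0 < cross n0 n1) (a1 : 0 < cross n1 n2) (a2 : 0 < cross n2 n3) (a3 : 0 < cross n3 n4)
    (a4 : 0 < cross n4 n0)
    (b0 : 0 < cross n0 n2) (b1 : 0 < cross n1 n3) (b2 : 0 < cross n2 n4) (b3 : 0 < cross n3 n0)
    (b4 : 0 < cross n4 n1) : False :=
  cyc5 a0 a1 a2 a3 a4 b0 b1 b2 b3 b4
    (stepA h4 h1 h2 r01 a4 a0 a1 b4 b2) (stepA h0 h2 h3 r12 a0 a1 a2 b0 b3)
    (stepA h1 h3 h4 r23 a1 a2 a3 b1 b4) (stepA h2 h4 h0 r34 a2 a3 a4 b2 b0)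
    (stepA h3 h0 h1 r40 a3 a4 a0 b3 b1)
    (stepB h4 h0 h2 r10 a4 a0 a1 b0 b2) (stepB h0 h1 h3 r21 a0 a1 a2 b1 b3)
    (stepB h1 h2 h4 r32 a1 a2 a3 b2 b4) (stepB h2 h3 h0 r43 a2 a3 a4 b3 b0)
    (stepB h3 h4 h1 r04 a3 a4 a0 b4 b1)

end Pool.Agent.H9Z.Cover
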