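import Mathlib
import Pool.Agent.H9Z.Cover.Core

set_option autoImplicit false

namespace Pool.Agent.H9Z.Cover

open Set Filter Topology

def IsUnitDir (n : ℝ × ℝ) : Prop := n.1 ^ 2 + n.2 ^ 2 = 1

/-- unit directions whose support point lies in `C` -/
def dirs (K C : Set E) : Set (ℝ × ℝ) := {n | IsUnitDir n ∧ ∃ p ∈ C, IsTop K n p}

lemma continuous_ev : Continuous (fun x : (ℝ × ℝ) × E => ev x.1 x.2) := by
  unfold ev; fun_prop

lemma isCompact_unit : IsCompact {n : ℝ × ℝ | IsUnitDir n} := by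
  have hc : IsClosed {n : ℝ × ℝ | IsUnitDir n} := by
    unfold IsUnitDir
    exact isClosed_eq (by fun_prop) continuous_const
  have hk : IsCompact (Icc (-1 : ℝ) 1 ×ˢ Icc (-1 : ℝ) 1) := isCompact_Icc.prod isCompact_Icc
  refine hk.of_isClosed_subset hc ?_
  intro n hn
  have h : n.1 ^ 2 + n.2 ^ 2 = 1 := hn
  refine ⟨⟨?_, ?_⟩, ⟨?_, ?_⟩⟩ <;> nlinarith [sq_nonneg n.1, sq_nonneg n.2, sq_nonneg (n.1 - 1),
    sq_nonneg (n.1 + 1), sq_nonneg (n.2 - 1), sq_nonneg (n.2 + 1)]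

lemma isCompact_dirs {K C : Set E} (hK : IsCompact K) (hC : IsClosed C) :
    IsCompact (dirs K C) := by
  have h1 : IsClosed {x : (ℝ × ℝ) × E | x.2 ∈ C ∧ ∀ q ∈ K, ev x.1 q ≤ ev x.1 x.2} := by
    have e : {x : (ℝ × ℝ) × E | x.2 ∈ C ∧ ∀ q ∈ K, ev x.1 q ≤ ev x.1 x.2} =
        (Prod.snd ⁻¹' C) ∩ ⋂ q ∈ K, {x : (ℝ × ℝ) × E | ev x.1 q ≤ ev x.1 x.2} := by
      ext x; simp
    rw [e]
    refine (hC.preimage continuous_snd).inter (isClosed_biInter fun q _ => ?_)
    exact isClosed_le (by unfold ev; fun_prop) continuous_ev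
  have h2 := ((isCompact_unit.prod hK).inter_right h1).image continuous_fst
  convert h2 using 1
  ext n
  constructor
  · rintro ⟨hn, p, hp, hpK, hmax⟩
    exact ⟨(n, p), ⟨⟨hn, hpK⟩, hp, hmax⟩, rfl⟩
  · rintro ⟨⟨m, p⟩, ⟨⟨hn, hpK⟩, hp, hmax⟩, rfl⟩
    exact ⟨hn, p, hp, hpK, hmax⟩

lemma exists_last {K C : Set E} (hK : IsCompact K) (hC : IsClosed C)
    (hN : ∀ x ∈ C, ∀ y ∈ C, Near K x y) (hne : (dirs K C).Nonempty) :
    ∃ b ∈ dirs K C, ∀ n ∈ dirs K C, cross b n ≤ 0 := by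
  obtain ⟨d, hd⟩ := hne
  have hcl : IsClosed {n : ℝ × ℝ | 0 ≤ cross d n} :=
    isClosed_le continuous_const (by unfold cross; fun_prop)
  have hcomp := (isCompact_dirs hK hC).inter_right hcl
  have hne' : (dirs K C ∩ {n : ℝ × ℝ | 0 ≤ cross d n}).Nonempty :=
    ⟨d, hd, by simp only [mem_setOf_eq, cross]; linarith⟩
  have hcont : ContinuousOn (fun n : ℝ × ℝ => d.1 * n.1 + d.2 * n.2)
      (dirs K C ∩ {n : ℝ × ℝ | 0 ≤ cross d n}) := by fun_prop
  obtain ⟨b, ⟨hb, hb0⟩, hmin⟩ := hcomp.exists_isMinOn hne' hcont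
  refine ⟨b, hb, fun n hn => ?_⟩
  by_contra hlt
  push Not at hlt
  have hb0' : 0 ≤ cross d b := hb0
  by_cases hdn : 0 ≤ cross d n
  · have hm : d.1 * b.1 + d.2 * b.2 ≤ d.1 * n.1 + d.2 * n.2 := hmin ⟨hn, hdn⟩
    have ud : d.1 ^ 2 + d.2 ^ 2 = 1 := hd.1
    have ub : b.1 ^ 2 + b.2 ^ 2 = 1 := hb.1
    have un : n.1 ^ 2 + n.2 ^ 2 = 1 := hn.1
    set cb := d.1 * b.1 + d.2 * b.2 with hcb
    set cn := d.1 * n.1 + d.2 * n.2 with hcn
    set sb := cross d b with hsb
    set sn := cross d n with hsn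
    have e1 : cross b n = cb * sn - sb * cn := by
      have : cb * sn - sb * cn = (d.1 ^ 2 + d.2 ^ 2) * cross b n := by
        simp only [hcb, hcn, hsb, hsn, cross]; ring
      rw [this, ud, one_mul]
    have e2 : cb ^ 2 + sb ^ 2 = 1 := by
      have : cb ^ 2 + sb ^ 2 = (d.1 ^ 2 + d.2 ^ 2) * (b.1 ^ 2 + b.2 ^ 2) := by
        simp only [hcb, hsb, cross]; ring
      rw [this, ud, ub, one_mul]
    have e3 : cn ^ 2 + sn ^ 2 = 1 := by
      have : cn ^ 2 + sn ^ 2 = (d.1 ^ 2 + d.2 ^ 2) * (n.1 ^ 2 + n.2 ^ 2) := by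
        simp only [hcn, hsn, cross]; ring
      rw [this, ud, un, one_mul]
    rw [e1] at hlt
    have hs : 0 < sb + sn := by
      rcases lt_or_eq_of_le (add_nonneg hb0' hdn) with h | h
      · exact h
      · have h1 : sb = 0 := by linarith
        have h2 : sn = 0 := by linarith
        rw [h1, h2] at hlt
        simp at hlt
    have e4 : (cb * sn - sb * cn) * (sb + sn) = (cb - cn) * (1 + cb * cn + sb * sn) := by
      have h1 : sn ^ 2 = 1 - cn ^ 2 := by linarith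
      have h2 : sb ^ 2 = 1 - cb ^ 2 := by linarith
      calc _ = cb * sn * sb + cb * sn ^ 2 - sb ^ 2 * cn - sb * cn * sn := by ring
        _ = _ := by rw [h1, h2]; ring
    have e5 : 0 ≤ 1 + cb * cn + sb * sn := by
      nlinarith [sq_nonneg (cb + cn), sq_nonneg (sb + sn)]
    have e6 : 0 < (cb * sn - sb * cn) * (sb + sn) := mul_pos hlt hs
    have e7 : (cb - cn) * (1 + cb * cn + sb * sn) ≤ 0 :=
      mul_nonpos_of_nonpos_of_nonneg (by linarith) e5
    linarith
  · push Not at hdn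
    obtain ⟨_, pb, hpb, tb⟩ := hb
    obtain ⟨_, pn, hpn, tn⟩ := hn
    obtain ⟨_, pd, hpd, td⟩ := hd
    refine tri tb tn td (hN _ hpb _ hpn) (hN _ hpd _ hpn) hlt ?_ ?_
    · simp only [cross] at hdn ⊢; linarith
    · simp only [cross] at hb0' ⊢; linarith

lemma exists_top {K : Set E} (hK : IsCompact K) (hne : K.Nonempty) (n : ℝ × ℝ) :
    ∃ p, IsTop K n p := by
  have hcont : ContinuousOn (fun x : E => ev n x) K := by unfold ev; fun_prop
  obtain ⟨p, hp, hmax⟩ := hK.exists_isMaxOn hne hcont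
  exact ⟨p, hp, fun q hq => hmax hq⟩

lemma exists_next {ι : Type} [Finite ι] {K : Set E} {C : ι → Set E} (hK : IsCompact K)
    (hne : K.Nonempty) (hC : ∀ i, IsClosed (C i)) (hcov : K ⊆ ⋃ i, C i) {b : ℝ × ℝ}
    (hb : IsUnitDir b) : ∃ j, b ∈ dirs K (C j) ∧ ∃ n ∈ dirs K (C j), 0 < cross b n := by
  have ub : b.1 ^ 2 + b.2 ^ 2 = 1 := hb
  let g : ℝ → ℝ × ℝ := fun t =>
    (((1 - t ^ 2) * b.1 - 2 * t * b.2) / (1 + t ^ 2), ((1 - t ^ 2) * b.2 + 2 * t * b.1) / (1 + t ^ 2))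
  have gc : Continuous g := by
    refine Continuous.prodMk ?_ ?_
    · exact Continuous.div (by fun_prop) (by fun_prop) (fun t => by positivity)
    · exact Continuous.div (by fun_prop) (by fun_prop) (fun t => by positivity)
  have g0 : g 0 = b := by simp [g]
  have ht : Tendsto g (𝓝[>] 0) (𝓝 b) := by
    have := gc.tendsto 0
    rw [g0] at this
    exact this.mono_left nhdsWithin_le_nhds
  have hmem : ∀ t : ℝ, 0 < t → g t ∈ ⋃ j, (dirs K (C j) ∩ {n | 0 < cross b n}) := by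
    intro t ht0
    have hpos : 0 < 1 + t ^ 2 := by positivity
    have hu : IsUnitDir (g t) := by
      simp only [IsUnitDir, g]
      field_simp
      nlinarith [ub]
    have hc : 0 < cross b (g t) := by
      have : cross b (g t) = 2 * t / (1 + t ^ 2) := by
        simp only [cross, g]
        field_simp
        nlinarith [ub]
      rw [this]; positivity
    obtain ⟨p, hp⟩ := exists_top hK hne (g t)
    obtain ⟨j, hj⟩ := mem_iUnion.1 (hcov hp.1)
    exact mem_iUnion.2 ⟨j, ⟨hu, p, hj, hp⟩, hc⟩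
  have hcl : b ∈ closure (⋃ j, (dirs K (C j) ∩ {n | 0 < cross b n})) :=
    mem_closure_of_tendsto ht (by
      filter_upwards [self_mem_nhdsWithin] with t ht0 using hmem t ht0)
  rw [closure_iUnion_of_finite] at hcl
  obtain ⟨j, hj⟩ := mem_iUnion.1 hcl
  refine ⟨j, ?_, ?_⟩
  · exact (isCompact_dirs hK (hC j)).isClosed.closure_subset
      (closure_mono inter_subset_left hj)
  · obtain ⟨n, hn1, hn2⟩ := closure_nonempty_iff.1 ⟨b, hj⟩
    exact ⟨n, hn1, hn2⟩

theorem core {K : Set E} {C : Fin 5 → Set E} (hK : IsCompact K) (hne : K.Nonempty)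
    (huniq : ∀ n, IsUnitDir n → ∀ p q, IsTop K n p → IsTop K n q → p = q)
    (hC : ∀ i, IsClosed (C i)) (hcov : K ⊆ ⋃ i, C i)
    (hN : ∀ i, ∀ x ∈ C i, ∀ y ∈ C i, Near K x y) : False := by
  classical
  let I := {i : Fin 5 // (dirs K (C i)).Nonempty}
  have hb : ∀ i : I, ∃ b ∈ dirs K (C i.1), ∀ n ∈ dirs K (C i.1), cross b n ≤ 0 :=
    fun i => exists_last hK (hC i.1) (hN i.1) i.2
  choose b hb1 hb2 using hb
  have hz : ∀ i : I, ∃ p ∈ C i.1, IsTop K (b i) p := fun i => (hb1 i).2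
  choose z hz1 hz2 using hz
  have hf : ∀ i : I, ∃ j : I, 0 < cross (b i) (b j) ∧ Near K (z i) (z j) ∧ Near K (z j) (z i) := by
    intro i
    obtain ⟨j, hj, n, hn, hc⟩ := exists_next hK hne hC hcov (hb1 i).1
    let j' : I := ⟨j, ⟨n, hn⟩⟩
    obtain ⟨_, p, hp, tp⟩ := hj
    have hpz : p = z i := huniq _ (hb1 i).1 _ _ tp (hz2 i)
    have hzi : z i ∈ C j := hpz ▸ hp
    have hzj : z j' ∈ C j := hz1 j'
    refine ⟨j', ?_, hN j _ hzi _ hzj, hN j _ hzj _ hzi⟩
    by_contra hle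
    push Not at hle
    have h1 : cross (b j') n ≤ 0 := hb2 j' n hn
    have h2 : cross (b j') (b i) ≤ 0 := hb2 j' (b i) ⟨(hb1 i).1, p, hp, tp⟩
    obtain ⟨_, pn, hpn, tn⟩ := hn
    rcases lt_or_eq_of_le h1 with h | h
    · refine tri (hz2 i) tn (hz2 j') (hN j _ hzi _ hpn) (hN j _ hzj _ hpn) hc ?_ hle
      simp only [cross] at h ⊢; linarith
    · have h3 : cross (b i) (b j') = 0 := by simp only [cross] at hle h2 ⊢; linarith
      have uj : (b j').1 ^ 2 + (b j').2 ^ 2 = 1 := (hb1 j').1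
      have e1 : cross (b i) n * (b j').1 = cross (b j') n * (b i).1 + cross (b i) (b j') * n.1 := by
        simp only [cross]; ring
      have e2 : cross (b i) n * (b j').2 = cross (b j') n * (b i).2 + cross (b i) (b j') * n.2 := by
        simp only [cross]; ring
      rw [h, h3] at e1 e2
      have f1 : (b j').1 = 0 := by
        have : cross (b i) n * (b j').1 = 0 := by linarith
        exact (mul_eq_zero.1 this).resolve_left hc.ne'
      have f2 : (b j').2 = 0 := by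
        have : cross (b i) n * (b j').2 = 0 := by linarith
        exact (mul_eq_zero.1 this).resolve_left hc.ne'
      rw [f1, f2] at uj
      norm_num at uj
  choose f hf1 hf2 hf3 using hf
  have hI : Nonempty I := by
    obtain ⟨j, hj, _⟩ := exists_next hK hne hC hcov (b := (1, 0)) (by simp [IsUnitDir])
    exact ⟨⟨j, ⟨_, hj⟩⟩⟩
  obtain ⟨i0⟩ := hI
  have h2 : ∀ i : I, 0 < cross (b i) (b (f (f i))) := by
    intro i
    by_contra hle
    push Not at hle
    exact tri (hz2 i) (hz2 (f i)) (hz2 (f (f i))) (hf2 i) (hf3 (f i)) (hf1 i) (hf1 (f i)) hle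
  have anti : ∀ n m : ℝ × ℝ, 0 < cross n m → 0 < cross m n → False := by
    intro n m h h'
    simp only [cross] at h h'; linarith
  have c1 : ∀ i : I, f i ≠ i := by
    intro i h
    have := hf1 i
    rw [h] at this
    exact anti _ _ this this
  have c2 : ∀ i : I, f (f i) ≠ i := by
    intro i h
    have := h2 i
    rw [h] at this
    exact anti _ _ this this
  have c3 : ∀ i : I, f (f (f i)) ≠ i := by
    intro i h
    have h' := hf1 (f (f i))
    rw [h] at h'
    exact anti _ _ (h2 i) h'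
  have c4 : ∀ i : I, f (f (f (f i))) ≠ i := by
    intro i h
    have h' := h2 (f (f i))
    rw [h] at h'
    exact anti _ _ (h2 i) h'
  have c5 : ∀ i : I, f (f (f (f (f i)))) ≠ i := by
    intro i h
    have a4 := hf1 (f (f (f (f i))))
    have r40 := hf2 (f (f (f (f i))))
    have r04 := hf3 (f (f (f (f i))))
    have b3 := h2 (f (f (f i)))
    have b4 := h2 (f (f (f (f i))))
    rw [h] at a4 r40 r04 b3 b4
    exact pent (hz2 i) (hz2 (f i)) (hz2 (f (f i))) (hz2 (f (f (f i)))) (hz2 (f (f (f (f i)))))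
      (hf2 _) (hf2 _) (hf2 _) (hf2 _) r40 (hf3 _) (hf3 _) (hf3 _) (hf3 _) r04
      (hf1 _) (hf1 _) (hf1 _) (hf1 _) a4 (h2 _) (h2 _) (h2 _) b3 b4
  obtain ⟨s, t, hst, he⟩ := Fintype.exists_ne_map_eq_of_card_lt
    (fun m : Fin 6 => (f^[m.1] i0).1) (by simp)
  have he' : f^[s.1] i0 = f^[t.1] i0 := Subtype.ext he
  have main : ∀ s t : ℕ, s < t → t ≤ 5 → f^[s] i0 = f^[t] i0 → False := by
    intro s t hlt hle heq
    obtain ⟨k, rfl⟩ : ∃ k, t = k + s := ⟨t - s, by omega⟩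
    rw [Function.iterate_add_apply] at heq
    have hk : k = 1 ∨ k = 2 ∨ k = 3 ∨ k = 4 ∨ k = 5 := by omega
    rcases hk with rfl | rfl | rfl | rfl | rfl
    · exact c1 _ heq.symm
    · exact c2 _ heq.symm
    · exact c3 _ heq.symm
    · exact c4 _ heq.symm
    · exact c5 _ heq.symm
  have hs := s.2
  have ht := t.2
  rcases lt_or_gt_of_ne (fun h => hst (Fin.ext h)) with h | h
  · exact main _ _ h (by omega) he'
  · exact main _ _ h (by omega) he'.symm

end Pool.Agent.H9Z.Cover
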