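import Mathlib
import Pool.Agent.H9Z.Cover.Chain

set_option autoImplicit false

namespace Pool.Agent.H9Z.Cover

open Set Filter Topology

def qd (o x : E) : ℝ := (x 0 - o 0) ^ 2 + (x 1 - o 1) ^ 2

/-- a strictly convex body inside `K` -/
def inner' (K : Set E) (o : E) (e : ℝ) : Set E :=
  {x | ∃ s : ℝ, 0 ≤ s ∧ ∃ k ∈ K, x = o + s • (k - o) ∧ s ^ 2 + e * qd o x ≤ 1}

lemma qd_nonneg (o x : E) : 0 ≤ qd o x := by unfold qd; positivity

lemma qd_smul (o k : E) (s : ℝ) : qd o (o + s • (k - o)) = s ^ 2 * qd o k := by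
  simp only [qd, PiLp.add_apply, PiLp.smul_apply, PiLp.sub_apply, smul_eq_mul]; ring

lemma ev_smul (n : ℝ × ℝ) (o k : E) (s : ℝ) :
    ev n (o + s • (k - o)) = ev n o + s * (ev n k - ev n o) := by
  simp only [ev, PiLp.add_apply, PiLp.smul_apply, PiLp.sub_apply, smul_eq_mul]; ring

lemma s_le_one {o x : E} {e s : ℝ} (he : 0 ≤ e) (hs : 0 ≤ s) (h : s ^ 2 + e * qd o x ≤ 1) :
    s ≤ 1 := by
  have := mul_nonneg he (qd_nonneg o x)
  nlinarith

lemma inner_subset {K : Set E} (hc : Convex ℝ K) {o : E} (ho : o ∈ K) {e : ℝ} (he : 0 ≤ e) :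
    inner' K o e ⊆ K := by
  rintro x ⟨s, hs, k, hk, hx, h⟩
  rw [hx]
  exact hc.add_smul_sub_mem ho hk ⟨hs, s_le_one he hs h⟩

lemma isCompact_inner {K : Set E} (hK : IsCompact K) (o : E) {e : ℝ} (he : 0 ≤ e) :
    IsCompact (inner' K o e) := by
  have hcl : IsClosed {y : ℝ × E | y.1 ^ 2 + e * qd o (o + y.1 • (y.2 - o)) ≤ 1} := by
    refine isClosed_le ?_ continuous_const
    unfold qd; fun_prop
  have h1 := ((isCompact_Icc (a := (0 : ℝ)) (b := 1)).prod hK).inter_right hcl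
  have h2 := h1.image (f := fun y : ℝ × E => o + y.1 • (y.2 - o)) (by fun_prop)
  convert h2 using 1
  ext x
  constructor
  · rintro ⟨s, hs, k, hk, hx, h⟩
    refine ⟨(s, k), ⟨⟨⟨hs, s_le_one he hs h⟩, hk⟩, ?_⟩, hx.symm⟩
    show s ^ 2 + e * qd o (o + s • (k - o)) ≤ 1
    rw [← hx]; exact h
  · rintro ⟨⟨s, k⟩, ⟨⟨hs, hk⟩, h⟩, rfl⟩
    exact ⟨s, hs.1, k, hk, rfl, h⟩

lemma mem_inner {K : Set E} {o k : E} {e μ R : ℝ} (he : 0 ≤ e) (hμ : 0 ≤ μ)
    (hR : ∀ k ∈ K, qd o k ≤ R) (hm : μ ^ 2 * (1 + e * R) ≤ 1) (hk : k ∈ K) :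
    o + μ • (k - o) ∈ inner' K o e := by
  refine ⟨μ, hμ, k, hk, rfl, ?_⟩
  rw [qd_smul]
  have h1 := mul_le_mul_of_nonneg_left (hR k hk) (mul_nonneg he (sq_nonneg μ))
  nlinarith

lemma exists_up {K : Set E} {o : E} (ho : o ∈ interior K) {n : ℝ × ℝ} (hn : n ≠ 0) :
    ∃ k ∈ K, ev n o < ev n k := by
  have hpos : 0 < n.1 ^ 2 + n.2 ^ 2 := by
    by_contra h
    push Not at h
    apply hn
    have h1 : n.1 = 0 := by nlinarith [sq_nonneg n.1, sq_nonneg n.2]
    have h2 : n.2 = 0 := by nlinarith [sq_nonneg n.1, sq_nonneg n.2]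
    exact Prod.ext h1 h2
  let v : E := !₂[n.1, n.2]
  have hcont : Continuous (fun t : ℝ => o + t • v) := by fun_prop
  have ht : Tendsto (fun t : ℝ => o + t • v) (𝓝[>] 0) (𝓝 o) := by
    have := hcont.tendsto 0
    simp only [zero_smul, add_zero] at this
    exact this.mono_left nhdsWithin_le_nhds
  have hev := ht.eventually (mem_interior_iff_mem_nhds.1 ho)
  obtain ⟨t, htK, ht0⟩ := (hev.and self_mem_nhdsWithin).exists
  refine ⟨o + t • v, htK, ?_⟩
  have ht0' : 0 < t := ht0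
  have : ev n (o + t • v) = ev n o + t * (n.1 ^ 2 + n.2 ^ 2) := by
    simp only [ev, v, PiLp.add_apply, PiLp.smul_apply, smul_eq_mul]
    simp
    ring
  rw [this]
  have := mul_pos ht0' hpos
  linarith

lemma uniq_inner {K : Set E} (hc : Convex ℝ K) {o : E} (ho : o ∈ interior K) {e μ R : ℝ}
    (he : 0 < e) (hμ : 0 < μ) (hR : ∀ k ∈ K, qd o k ≤ R) (hm : μ ^ 2 * (1 + e * R) ≤ 1)
    {n : ℝ × ℝ} (hn : n ≠ 0) {p q : E} (hp : IsTop (inner' K o e) n p)
    (hq : IsTop (inner' K o e) n q) : p = q := by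
  obtain ⟨u, hu, hup⟩ := exists_up ho hn
  have h0 := hp.2 _ (mem_inner he.le hμ.le hR hm hu)
  rw [ev_smul] at h0
  have hpos : ev n o < ev n p := by
    have := mul_pos hμ (sub_pos.2 hup)
    linarith
  have hpq : ev n p = ev n q := le_antisymm (hq.2 _ hp.1) (hp.2 _ hq.1)
  obtain ⟨s, hs, k, hk, hx, h1⟩ := hp.1
  obtain ⟨t, ht, l, hl, hy, h2⟩ := hq.1
  have hs0 : 0 < s := by
    rcases lt_or_eq_of_le hs with h | h
    · exact h
    · rw [hx, ← h] at hpos
      simp at hpos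
  have hst : 0 < s + t := by linarith
  by_contra hne
  have hd : 0 < (p 0 - q 0) ^ 2 + (p 1 - q 1) ^ 2 := by
    by_contra h
    push Not at h
    apply hne
    have g0 : p 0 - q 0 = 0 := by nlinarith [sq_nonneg (p 0 - q 0), sq_nonneg (p 1 - q 1)]
    have g1 : p 1 - q 1 = 0 := by nlinarith [sq_nonneg (p 0 - q 0), sq_nonneg (p 1 - q 1)]
    ext i
    fin_cases i
    · simpa using sub_eq_zero.1 g0
    · simpa using sub_eq_zero.1 g1
  let k' : E := (s / (s + t)) • k + (t / (s + t)) • l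
  have hk' : k' ∈ K := hc hk hl (by positivity) (by positivity) (by field_simp)
  let m : E := o + ((s + t) / 2) • (k' - o)
  have m0 : m 0 = (p 0 + q 0) / 2 := by
    rw [hx, hy]
    simp only [m, k', PiLp.add_apply, PiLp.smul_apply, PiLp.sub_apply, smul_eq_mul]
    field_simp
    ring
  have m1 : m 1 = (p 1 + q 1) / 2 := by
    rw [hx, hy]
    simp only [m, k', PiLp.add_apply, PiLp.smul_apply, PiLp.sub_apply, smul_eq_mul]
    field_simp
    ring
  have hevm : ev n m = ev n p := by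
    have : ev n m = (ev n p + ev n q) / 2 := by
      simp only [ev, m0, m1]; ring
    rw [this, ← hpq]; ring
  set c := ((s + t) / 2) ^ 2 + e * qd o m with hcdef
  have hc1 : c < 1 := by
    have e1 : qd o m = (qd o p + qd o q) / 2 - ((p 0 - q 0) ^ 2 + (p 1 - q 1) ^ 2) / 4 := by
      simp only [qd, m0, m1]; ring
    have e2 := mul_pos he hd
    rw [hcdef, e1]
    nlinarith [sq_nonneg (s - t)]
  have hc0 : 0 ≤ c := by
    have := mul_nonneg he.le (qd_nonneg o m)
    positivity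
  -- scale by ρ = 2 / (1 + c) > 1
  have hρ : 1 < 2 / (1 + c) := by
    rw [lt_div_iff₀ (by linarith)]; linarith
  by_cases hcz : c ≤ 1 / 4
  · have hmem : o + (2 * ((s + t) / 2)) • (k' - o) ∈ inner' K o e := by
      refine ⟨2 * ((s + t) / 2), by positivity, k', hk', rfl, ?_⟩
      have e1 : qd o m = ((s + t) / 2) ^ 2 * qd o k' := qd_smul _ _ _
      rw [qd_smul]
      rw [hcdef, e1] at hcz
      nlinarith
    have h3 := hp.2 _ hmem
    rw [ev_smul] at h3
    have h4 : ev n m = ev n o + (s + t) / 2 * (ev n k' - ev n o) := ev_smul _ _ _ _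
    nlinarith
  · push Not at hcz
    let ρ : ℝ := 1 / Real.sqrt c
    have hsq : 0 < Real.sqrt c := Real.sqrt_pos.2 (by linarith)
    have hsq1 : Real.sqrt c < 1 := by
      rw [Real.sqrt_lt' one_pos]; linarith
    have hρ1 : 1 < ρ := by
      simp only [ρ]
      rw [lt_div_iff₀ hsq]; linarith
    have hρ2 : ρ ^ 2 * c = 1 := by
      simp only [ρ]
      rw [div_pow, Real.sq_sqrt hc0]
      field_simp
    have hmem : o + (ρ * ((s + t) / 2)) • (k' - o) ∈ inner' K o e := by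
      refine ⟨ρ * ((s + t) / 2), by positivity, k', hk', rfl, ?_⟩
      have e1 : qd o m = ((s + t) / 2) ^ 2 * qd o k' := qd_smul _ _ _
      rw [qd_smul]
      rw [hcdef, e1] at hρ2
      nlinarith
    have h3 := hp.2 _ hmem
    rw [ev_smul] at h3
    have h4 : ev n m = ev n o + (s + t) / 2 * (ev n k' - ev n o) := ev_smul _ _ _ _
    have h5 : 0 < (s + t) / 2 * (ev n k' - ev n o) := by linarith
    have h6 := mul_lt_mul_of_pos_right hρ1 h5
    nlinarith

theorem not_cover (K : Set E) (hK : IsCompact K) (hc : Convex ℝ K) (hi : (interior K).Nonempty)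
    (x : Fin 5 → E) (r : Fin 5 → ℝ) (hr : ∀ i, 0 < r i ∧ r i < 1 / 2) :
    ¬ K ⊆ ⋃ i, (fun k => x i + r i • k) '' K := by
  intro hcov
  obtain ⟨o, ho⟩ := hi
  have hoK : o ∈ K := interior_subset ho
  obtain ⟨i0, hi0⟩ := Finite.exists_max r
  have hcq : ContinuousOn (qd o) K := by unfold qd; fun_prop
  obtain ⟨kR, hkR, hmax⟩ := hK.exists_isMaxOn ⟨o, hoK⟩ hcq
  set R := qd o kR with hRdef
  have hR : ∀ k ∈ K, qd o k ≤ R := fun k hk => hmax hk
  have hR0 : 0 ≤ R := qd_nonneg _ _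
  set μ := r i0 + 1 / 2 with hμdef
  have hμ0 : 0 < μ := by have := (hr i0).1; linarith
  have hμ1 : μ < 1 := by have := (hr i0).2; linarith
  have hμr : ∀ i, 2 * r i < μ := fun i => by
    have := hi0 i; have := (hr i0).2; linarith
  set e := (1 - μ ^ 2) / (R + 1) with hedef
  have hμ2 : μ ^ 2 < 1 := by nlinarith
  have he : 0 < e := div_pos (by linarith) (by linarith)
  have hm : μ ^ 2 * (1 + e * R) ≤ 1 := by
    have h1 : e * (R + 1) = 1 - μ ^ 2 := by rw [hedef]; field_simp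
    have h2 : 0 ≤ e * R := mul_nonneg he.le hR0
    nlinarith
  refine core (K := inner' K o e) (C := fun i => (fun k => x i + r i • k) '' K)
    (isCompact_inner hK o he.le) ⟨_, mem_inner he.le hμ0.le hR hm hoK⟩ ?_ ?_
    ((inner_subset hc hoK he.le).trans hcov) ?_
  · intro n hn p q hp hq
    refine uniq_inner hc ho he hμ0 hR hm ?_ hp hq
    rintro rfl
    simp [IsUnitDir] at hn
  · intro i
    exact (hK.image (by fun_prop)).isClosed
  · rintro i _ ⟨k, hk, rfl⟩ _ ⟨l, hl, rfl⟩ n hn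
    have e1 : ev n (x i + r i • k) - ev n (x i + r i • l) = r i * (ev n k - ev n l) := by
      simp only [ev, PiLp.add_apply, PiLp.smul_apply, smul_eq_mul]; ring
    rw [e1]
    by_cases hkl : 0 < ev n k - ev n l
    · refine ⟨_, mem_inner he.le hμ0.le hR hm hk, _, mem_inner he.le hμ0.le hR hm hl, ?_⟩
      rw [ev_smul, ev_smul]
      have := mul_lt_mul_of_pos_right (hμr i) hkl
      linarith
    · push Not at hkl
      obtain ⟨u, hu, hup⟩ := exists_up ho hn
      refine ⟨_, mem_inner he.le hμ0.le hR hm hu, _, mem_inner he.le hμ0.le hR hm hoK, ?_⟩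
      rw [ev_smul, ev_smul]
      have h1 := mul_pos hμ0 (sub_pos.2 hup)
      have h2 := mul_nonneg (hr i).1.le (neg_nonneg.2 hkl)
      linarith

end Pool.Agent.H9Z.Cover
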